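import Pool.Agent.K4H25.AB.Main

/-!
# Abundance for images of fibrations by curves, up to the degree of the positivity

Let `V` be a projective variety over `ℂ` of dimension `n + 1` and `V ⇢ V'` a rational map with
irreducible generic fibres onto a variety of dimension `n`, with function field `ℂ(t 1, ..., t N)`;
let `H` be the pullback of the hyperplane class under `V ⇢ V' ⊂ ℙ ^ N`. The fibres are curves of any
genus. Suppose that there are sections of `K_V - M H` which generate the regular differentials of
the (geometric) generic fibre: canonical forms `ω j` on `V` such that `t ^ a ω j` is regular for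
`|a| ≤ M` and such that the restrictions of the `ω j` generate. For example `V` may be a general
hypersurface of multidegree `(e 1, ..., e n, a, b)` in `(ℙ ^ 1) ^ (n + 2)` with `e l ≥ M + 2`, see
`CurveFibrations`.

Let `V ⇢ W` be a dominant rational map of finite degree `r`. The map is arbitrary; it is not assumed
to be related to the fibration. Let `W'` be the image of `V` in `W × V'`, and let `m ≤ r` be the
degree of `W' → W`.

* If `m ≤ M + 1` then `p_g(W) = 0` if and only if `κ(W) = -∞`, if and only if `K_W` is not
  pseudo-effective, if and only if `W` is uniruled.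
* If `m ≤ M` then `W` is uniruled or `κ(W) ≥ n - 1 = dim W - 2`.
* If `m ≤ M` and `κ(V') ≥ 0` then `W` is uniruled or `κ(W) ≥ n = dim W - 1`.
* If `2 m ≤ M + 1` then `W` is uniruled or `κ(W) ≥ n = dim W - 1`.

A projective manifold `X` with nef canonical divisor is not uniruled, and if `κ(X) ≥ dim X - 3` then
`K_X` is semiample (Lai, Kawamata, and abundance in dimension at most three). So `K_X` is semiample
for all projective manifolds `X` with nef canonical divisor which are birational to such an image
`W` with `m ≤ M`.

Proof. If the traces on `W'` of all `ω j` vanish then the fibres of `W' ⇢ V'` are rational and `W` is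
uniruled (`Pool.Agent.R882.GL.dich`). Otherwise let `h` be the value of the trace of some `ω j` on
`W'`, and consider the canonical forms `T A = Tr (A(t) h)` on `W`, `deg A ≤ M`. If `m ≤ M + 1` then
one of them is not zero, because `m` points impose independent conditions on the polynomials of
degree `m - 1`. Let `D` be a vector field on `W` which preserves the ratios of the `T A`, and suppose
that it moves the `m` points of the fibres of `W' → W` in `V'`. This is a relation with `2 m` terms
between the values of the polynomials of degree `M` at the `m` points and their derivatives in the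
directions of the motion. If `2 m ≤ 2 M + 1` then the points are on a line `l` and move along the
line (Cayley-Bacharach for double points), so `l` is preserved by `D`; this is impossible if
`2 m ≤ M + 1`. If `D` and `D'` are such vector fields then their directions on the points are
proportional, as both are the direction of `l`. So the intersection of the kernels on `ℂ(t)` has
codimension at most one, and there are `n - 1` algebraically independent ratios. Moreover the lines
`l` have equations which are constant along `D`, so that the points sweep out rational curves in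
`V'`: the field of the coefficients of the equations of `l` and the coordinate `τ` on `l` is a purely
transcendental extension of the subfield of constants, and pulling back a pluricanonical form of
`V'` leads to a contradiction if `κ(V') ≥ 0`.
-/

set_option autoImplicit false
set_option linter.overlappingInstances false
set_option maxHeartbeats 4000000
set_option synthInstance.maxHeartbeats 400000

open FF Module Pool.Agent Pool.Agent.W602.GT Pool.Agent.W603.LV
open Pool.Agent.W619.PQ (IsUniruled)

namespace Pool.Agent.K4H25.Old.FibrationsDegreeM

/-- `ω` is a canonical form on the variety of dimension `n` with the function field `K` which is a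
section of `K_V - M H`, where `H` is the pullback of the hyperplane class under the map given by
`1, t 1, ..., t N`: the forms `t ^ a ω`, `|a| ≤ M`, are regular at all prime divisors. -/
def Twisted {K : Type} [Field K] [Algebra ℂ K] {N : ℕ} (n M : ℕ) (t : Fin N → K)
    (ω : (Fin n → Derivation ℂ K K) → K) : Prop :=
  IsPluri 1 ω ∧ ∀ a : Fin N → ℕ, ∑ j, a j ≤ M → ∀ P : Place ℂ K, Divisorial n P →
    RegAt P (fun D => (∏ j, t j ^ a j) * ω D)

/-- The restrictions of the canonical forms `ω j` on `V` to the geometric generic fibre of
`V ⇢ V'`, `ℂ(V') = B`, generate its regular differentials. Here `F` is the function field of the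
geometric generic fibre, over the algebraically closed field `Λ`, and `φ : K → F` is the
restriction; `ξ` is a coordinate of the fibre, `E` are the vector fields dual to the coordinates
`t, ξ` of `V`, and the restriction of `ω j` is `φ (ω j E) dξ`; a differential `f dξ` on the fibre is
regular if `ord_Q f + ord_Q dξ ≥ 0` for all places `Q`, where `ord_Q dξ = - vo Q D`, `D = d/dξ`. -/
def GenerateFibre {K : Type} [Field K] [Algebra ℂ K] {n : ℕ} {J : Type}
    (B : IntermediateField ℂ K) (ω : J → (Fin (n + 1) → Derivation ℂ K K) → K) : Prop :=
  ∀ (Λ F : Type) [Field Λ] [IsAlgClosed Λ] [Algebra ℂ Λ] [Field F] [Algebra Λ F]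
    [Algebra ℂ F] [IsScalarTower ℂ Λ F] (φ : K →ₐ[ℂ] F), IsFF Λ F →
    IntermediateField.adjoin Λ (Set.range φ) = ⊤ →
    (∀ z ∈ B, ∃ a : Λ, algebraMap Λ F a = φ z) →
    (∀ z : K, ¬ IsAlgebraic B z → Transcendental Λ (φ z)) →
    ∀ (t : Fin n → K) (ξ : K), (∀ j, t j ∈ B) →
      IsTranscendenceBasis ℂ (Fin.append t (fun _ : Fin 1 => ξ)) →
    ∀ E : Fin (n + 1) → Derivation ℂ K K,
      (∀ i j, E i (Fin.append t (fun _ : Fin 1 => ξ) j) = if i = j then 1 else 0) →
    ∀ D : Derivation Λ F F, D (φ ξ) = 1 →
      (∀ j (Q : Place Λ F), φ (ω j E) = 0 ∨ vo Q D ≤ Q.ord (φ (ω j E))) →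
    ∀ f : F, f ≠ 0 → (∀ Q : Place Λ F, vo Q D ≤ Q.ord f) →
      f ∈ Submodule.span Λ (Set.range fun j => φ (ω j E))

/-- The geometric genus of the variety with the function field `L` is zero: the only canonical form
which is regular at all prime divisors is `0`. -/
def GenusZero (L : Type) [Field L] [Algebra ℂ L] (n : ℕ) : Prop :=
  ∀ ω : (Fin n → Derivation ℂ L L) → L, IsPluri 1 ω →
    (∀ P : Place ℂ L, Divisorial n P → RegAt P ω) → ∀ D, ω D = 0

/-- **Images of fibrations by curves.** Let `V` be a variety of dimension `n + 1` with function
field `K`, and `V ⇢ V'` a rational map onto a variety of dimension `n` with function field `ℂ(t)`,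
with irreducible generic fibres. Let the `ω j` be finitely many canonical forms such that the
`t ^ a ω j`, `|a| ≤ M`, are regular and whose restrictions generate the regular differentials of the
geometric generic fibre. Let `V ⇢ W` be a dominant rational map of finite degree, `L` the function
field of `W`, and `m` the degree over `W` of the image of `V` in `W × V'`.
If `m ≤ M + 1` then `p_g(W) = 0` if and only if `κ(W) = -∞`, if and only if `K_W` is not
pseudo-effective, if and only if `W` is uniruled. If `m ≤ M` then `W` is uniruled or
`κ(W) ≥ dim W - 2`. If `m ≤ M` and `κ(V') ≥ 0`, or if `2 m ≤ M + 1`, then `W` is uniruled or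
`κ(W) ≥ dim W - 1`. -/
theorem result {n N M : ℕ} {K : Type} [Field K] [Algebra ℂ K] [Algebra.EssFiniteType ℂ K]
    (hK : Algebra.trdeg ℂ K = (n + 1 : ℕ)) {t : Fin N → K}
    (hd : Algebra.trdeg ℂ (IntermediateField.adjoin ℂ (Set.range t)) = (n : ℕ))
    (hcl : ∀ g : K, IsAlgebraic (IntermediateField.adjoin ℂ (Set.range t)) g →
      g ∈ IntermediateField.adjoin ℂ (Set.range t))
    {J : Type} [Finite J] {ω : J → (Fin (n + 1) → Derivation ℂ K K) → K}
    (hω : ∀ j, Twisted (n + 1) M t (ω j))
    (hgen : GenerateFibre (IntermediateField.adjoin ℂ (Set.range t)) ω)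
    (L : Type) [Field L] [Algebra ℂ L] [Algebra L K] [IsScalarTower ℂ L K]
    [FiniteDimensional L K] :
    (Module.finrank L (IntermediateField.adjoin L (Set.range t)) ≤ M + 1 →
      [GenusZero L (n + 1), ¬ KodGe ℂ L (n + 1) (fun _ => False) 0,
        ¬ Psef ℂ L (n + 1) (fun _ => False), IsUniruled ℂ L (n + 1)].TFAE) ∧
    (Module.finrank L (IntermediateField.adjoin L (Set.range t)) ≤ M →
      IsUniruled ℂ L (n + 1) ∨ KodGe ℂ L (n + 1) (fun _ => False) (n - 1)) ∧
    (Module.finrank L (IntermediateField.adjoin L (Set.range t)) ≤ M →
      KodGe ℂ (IntermediateField.adjoin ℂ (Set.range t)) n (fun _ => False) 0 →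
      IsUniruled ℂ L (n + 1) ∨ KodGe ℂ L (n + 1) (fun _ => False) n) ∧
    (2 * Module.finrank L (IntermediateField.adjoin L (Set.range t)) ≤ M + 1 →
      IsUniruled ℂ L (n + 1) ∨ KodGe ℂ L (n + 1) (fun _ => False) n) := by
  classical
  have hfin : FiniteDimensional L (IntermediateField.adjoin L (Set.range t)) := inferInstance
  have hpos : 0 < Module.finrank L (IntermediateField.adjoin L (Set.range t)) :=
    Module.finrank_pos
  have htfae : Module.finrank L (IntermediateField.adjoin L (Set.range t)) ≤ M + 1 →
      [GenusZero L (n + 1), ¬ KodGe ℂ L (n + 1) (fun _ => False) 0,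
        ¬ Psef ℂ L (n + 1) (fun _ => False), IsUniruled ℂ L (n + 1)].TFAE := by
    intro hs
    exact Pool.Agent.K4H25.AB.main_tfae hK hd hcl hω hgen L hs
  refine ⟨htfae, fun hs => ?_, fun hs hκ => (Pool.Agent.K4H25.AB.main_curve (by omega) hK hd hcl hω hgen L hs).2 hκ, fun hs => ?_⟩
  · rcases Nat.eq_zero_or_pos n with h0 | h0
    · subst h0
      by_cases hu : IsUniruled ℂ L (0 + 1)
      · exact Or.inl hu
      · right
        have h1 := ((htfae (by omega)).out 1 3).not.2 hu
        exact not_not.1 h1
    · obtain ⟨r, rfl⟩ : ∃ r, n = r + 1 := ⟨n - 1, by omega⟩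
      exact (Pool.Agent.K4H25.AB.main_curve (by omega) hK hd hcl hω hgen L hs).1 r rfl
  · exact Pool.Agent.K4H25.AB.main_half hK hd hcl hω hgen L hs

end Pool.Agent.K4H25.Old.FibrationsDegreeM
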